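import Pool.Agent.TMX.Stmts3

set_option autoImplicit false

/-!
# TMX, row GPL: the plain gap
-/

namespace Pool.Agent.TMX.H28

open Finset
open Pool.Agent.TMX
open Pool.Agent.Helper51_Max (I IsMax)
open Pool.Agent.Helper37_EM (var)

/-- GPL: a gap whose depth is `M v` for a `v` inside. -/
theorem gPl : GPl := by
  intro hR hS N g M hM p p' v hpv hvp hpN hQ
  have hvN : v ≤ N := le_trans hvp hpN
  have hgv : g v ≤ M v := Pool.Agent.Helper37_EM.g_le hM hvN
  refine ⟨?_, ?_, ?_⟩
  · intro u hu
    rw [hQ]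
    exact (hu v hpv hvp).trans hgv
  · intro u q hu hpq hqN hg
    rw [hQ]
    have hsub : Icc p' q ⊆ I N v (q - v) := by
      intro i hi
      rw [mem_Icc] at hi
      unfold Pool.Agent.Helper51_Max.I
      rw [mem_Icc]
      omega
    have hnn : ∀ i ∈ I N v (q - v), 0 ≤ g i - u := by
      intro i hi
      unfold Pool.Agent.Helper51_Max.I at hi
      rw [mem_Icc] at hi
      have := hg i (by omega)
      linarith
    have h1 : ∑ i ∈ Icc p' q, (g i - u) ≤ ∑ i ∈ I N v (q - v), (g i - u) :=
      sum_le_sum_of_subset_of_nonneg hsub fun i hi _ => hnn i hi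
    have h2 : 0 ≤ ∑ i ∈ I N v (q - v), (g i - u) := sum_nonneg hnn
    have h3 := (hR N g M hM).1 v (q - v) u hvN h2
    linarith
  · rw [hQ]
    have h1 := (hS N g M hM).1 v hvN
    have h2 := hM.nonneg v
    have h3 : 0 ≤ ((N : ℝ) + 1) * M v := mul_nonneg (by positivity) (h2.trans hgv)
    linarith

end Pool.Agent.TMX.H28
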